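import Mathlib
import Pool.Agent.Y262.EG.Stm

set_option autoImplicit false

/-! Project EG: the flow and the `C¹` functions on the unit tangent bundle. -/

open Set Filter Topology
open scoped ContDiff

namespace Pool.Agent.Y799.EG

open Pool.Agent.Y262.EG

theorem isOpen_YO {Ω : Set ℂ} (h : IsOpen Ω) : IsOpen (YO Ω) :=
  h.preimage continuous_fst

theorem alP (hD : StDWP) (_ : StFrame) (hFl : StFlP) : StAlP := by
  intro M P _ _ _ _ Ω φ pr q Fl hU hG F hF
  obtain ⟨hl, -, hA⟩ := hD M P Ω φ pr q hU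
  obtain ⟨hfp, -⟩ := hFl M P Ω φ pr q Fl hU hG
  have hopen := isOpen_YO hU.opn
  have hF' : ContDiffOn ℝ 1 (fun p => F (q p)) (YO Ω) := hF
  constructor
  · intro t
    have h1 : ContDiffOn ℝ 1 (Fl t) (YO Ω) := by
      have h2 : ContDiff ℝ 1 (fun p : Y => ((t, p) : ℝ × Y)) := contDiff_const.prodMk contDiff_id
      have h3 : ContDiffOn ℝ 1 (fun a : ℝ × Y => Fl a.1 a.2) {a | a.2 ∈ YO Ω} :=
        hG.smooth.of_le (by exact_mod_cast le_top)
      exact h3.comp h2.contDiffOn (fun p hp => hp)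
    have h4 : ContDiffOn ℝ 1 (fun p => F (q (Fl t p))) (YO Ω) := hF'.comp h1 (hG.maps t)
    refine h4.congr fun p hp => ?_
    show F (FlP Ω q Fl t (q p)) = F (q (Fl t p))
    rw [hfp t p hp]
  · intro x t
    obtain ⟨hp, hqp⟩ := hl x
    have hmem := hG.maps t _ hp
    have hdiff : HasFDerivAt (fun p => F (q p)) (fderiv ℝ (fun p => F (q p)) (Fl t (lft Ω q x)))
        (Fl t (lft Ω q x)) :=
      ((hF'.contDiffAt (hopen.mem_nhds hmem)).differentiableAt one_ne_zero).hasFDerivAt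
    have h1 := hdiff.comp_hasDerivAt t (hG.ode t _ hp)
    have h2 := ((hA F hF).2 (XX φ) (Or.inl rfl)).1 _ hmem
    have h3 : FlP Ω q Fl t x = q (Fl t (lft Ω q x)) := rfl
    rw [h3, h2]
    exact h1

end Pool.Agent.Y799.EG
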