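import Mathlib
import Pool.Agent.Y262.EG.Stm

set_option autoImplicit false

/-! Project EG: bounds for the slope, contraction, decay of the derivative. -/

open Set Filter Topology

namespace Pool.Agent.Y799.EG

open Pool.Agent.Y262.EG

theorem anti_of {f f' : ℝ → ℝ} {a b : ℝ} (hf : ∀ t, HasDerivAt f (f' t) t)
    (h : ∀ t ∈ Icc a b, f' t ≤ 0) : AntitoneOn f (Icc a b) :=
  antitoneOn_of_deriv_nonpos (convex_Icc a b)
    (fun t _ => (hf t).continuousAt.continuousWithinAt)
    (fun t _ => (hf t).differentiableAt.differentiableWithinAt)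
    (fun t ht => by rw [(hf t).deriv]; exact h t (interior_subset ht))

theorem mono_of {f f' : ℝ → ℝ} {a b : ℝ} (hf : ∀ t, HasDerivAt f (f' t) t)
    (h : ∀ t ∈ Icc a b, 0 ≤ f' t) : MonotoneOn f (Icc a b) :=
  monotoneOn_of_deriv_nonneg (convex_Icc a b)
    (fun t _ => (hf t).continuousAt.continuousWithinAt)
    (fun t _ => (hf t).differentiableAt.differentiableWithinAt)
    (fun t ht => by rw [(hf t).deriv]; exact h t (interior_subset ht))

theorem jac2 (h1 : StJac1) : StJac2 := by
  intro k c c1 s s1 hJ hk T u y y1 hT hu hy hy1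
  obtain ⟨-, -, -, hall⟩ := h1 k c c1 s s1 hJ hk
  obtain ⟨huT, hb, -, hanti, hmono, -, -⟩ := hall T u y y1 hT hu hy hy1
  have dy : ∀ t, HasDerivAt y (y1 t) t := by
    intro t
    have e : y = fun t => c t + u * s t := funext hy
    rw [e, hy1]
    exact (hJ.dc t).add ((hJ.ds t).const_mul u)
  have dy1 : ∀ t, HasDerivAt y1 (k t * y t) t := by
    intro t
    have e : y1 = fun t => c1 t + u * s1 t := funext hy1
    rw [e, hy]
    exact ((hJ.dc1 t).add ((hJ.ds1 t).const_mul u)).congr_deriv (by ring)
  have y0 : y 0 = 1 := by rw [hy, hJ.c0, hJ.s0]; ring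
  have y10 : y1 0 = u := by rw [hy1, hJ.c10, hJ.s10]; ring
  have hlin : ∀ (m t : ℝ), HasDerivAt (fun t => m * t) m t := fun m t => by
    simpa using (hasDerivAt_id t).const_mul m
  have hquad : ∀ (m t : ℝ), HasDerivAt (fun t => m * t ^ 2 / 2) (m * t) t := fun m t => by
    exact (((hasDerivAt_pow 2 t).const_mul m).div_const 2).congr_deriv (by push_cast; ring)
  refine ⟨?_, ?_, ?_, ?_⟩
  · intro κ hT1 hκ
    have a1 : ∀ t ∈ Icc (0 : ℝ) 1, y1 t - κ * t ≤ u := by
      have h2 := anti_of (f := fun t => y1 t - κ * t) (f' := fun t => k t * y t - κ)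
        (a := 0) (b := 1) (fun t => (dy1 t).sub (hlin κ t)) (by
          intro t ht
          have hbt := hb t ⟨ht.1, ht.2.trans hT1⟩
          have h3 := hκ t ht
          have h4 := hk t
          nlinarith [hbt.1, hbt.2.1])
      intro t ht
      have h3 := h2 ⟨le_rfl, zero_le_one⟩ ht ht.1
      simp only [y10, mul_zero, sub_zero] at h3
      exact h3
    have h2 := anti_of (f := fun t => y t - u * t - κ * t ^ 2 / 2)
      (f' := fun t => y1 t - u - κ * t) (a := 0) (b := 1)
      (fun t => ((dy t).sub (hlin u t)).sub (hquad κ t)) (by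
        intro t ht
        have := a1 t ht
        linarith)
    have h3 := h2 ⟨le_rfl, zero_le_one⟩ ⟨zero_le_one, le_rfl⟩ zero_le_one
    simp only [y0] at h3
    have h4 := (hb 1 ⟨zero_le_one, hT1⟩).1
    linarith
  · intro a τ κ ha hτ haT hκ hk2
    have hbT := hb (a + τ) ⟨by linarith, haT⟩
    have hsub : ∀ t ∈ Icc a (a + τ), t ∈ Icc 0 T := fun t ht =>
      ⟨ha.trans ht.1, ht.2.trans haT⟩
    have hend : a + τ ∈ Icc a (a + τ) := ⟨by linarith, le_rfl⟩
    have hst : a ∈ Icc a (a + τ) := ⟨le_rfl, by linarith⟩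
    have h2 := mono_of (f := fun t => y1 t - κ * y (a + τ) * t)
      (f' := fun t => k t * y t - κ * y (a + τ)) (a := a) (b := a + τ)
      (fun t => (dy1 t).sub (hlin _ t)) (by
        intro t ht
        have h3 := hk2 t ht
        have h4 : y (a + τ) ≤ y t := hanti (hsub t ht) (hsub _ hend) ht.2
        have h5 := mul_le_mul h3 h4 hbT.1 (hk t)
        linarith)
    have h3 := anti_of (f := fun t => y t - κ * y (a + τ) * (a + τ) * (-t) -
        κ * y (a + τ) * t ^ 2 / 2)
      (f' := fun t => y1 t + κ * y (a + τ) * (a + τ) - κ * y (a + τ) * t) (a := a) (b := a + τ)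
      (fun t => by
        have h4 : HasDerivAt (fun t => κ * y (a + τ) * (a + τ) * (-t))
            (-(κ * y (a + τ) * (a + τ))) t := by
          exact (((hasDerivAt_id t).neg).const_mul (κ * y (a + τ) * (a + τ))).congr_deriv (by ring)
        exact (((dy t).sub h4).sub (hquad (κ * y (a + τ)) t)).congr_deriv (by ring)) (by
        intro t ht
        have h4 := h2 ht hend ht.2
        simp only at h4
        have h5 := hbT.2.2.1
        linarith)
    have h4 := h3 hst hend (by linarith)
    simp only at h4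
    nlinarith [h4]
  · intro τ κ hτ hτT hκ hk2
    have h0 : (0 : ℝ) ∈ Icc 0 τ := ⟨le_rfl, hτ.le⟩
    have hτm : τ ∈ Icc 0 τ := ⟨hτ.le, le_rfl⟩
    have hsub : ∀ t ∈ Icc 0 τ, t ∈ Icc 0 T := fun t ht => ⟨ht.1, ht.2.trans hτT⟩
    rcases le_or_gt (1 / 2) (y τ) with hhalf | hhalf
    · refine (min_le_left _ _).trans ?_
      have h2 := mono_of (f := fun t => y1 t - κ / 2 * t) (f' := fun t => k t * y t - κ / 2)
        (a := 0) (b := τ) (fun t => (dy1 t).sub (hlin _ t)) (by
          intro t ht
          have h3 := hk2 t ht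
          have h4 : y τ ≤ y t := hanti (hsub t ht) (hsub _ hτm) ht.2
          have h5 := mul_le_mul h3 (hhalf.trans h4) (by norm_num) (hk t)
          linarith)
      have h3 := h2 h0 hτm hτ.le
      simp only [y10, mul_zero, sub_zero] at h3
      have h4 := (hb τ (hsub _ hτm)).2.2.1
      linarith
    · refine (min_le_right _ _).trans ?_
      have h2 := mono_of (f := fun t => y t - u * t) (f' := fun t => y1 t - u)
        (a := 0) (b := τ) (fun t => (dy t).sub (hlin _ t)) (by
          intro t ht
          have h3 := hmono ⟨le_rfl, hT.le⟩ (hsub t ht) ht.1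
          rw [y10] at h3
          linarith)
      have h3 := h2 h0 hτm hτ.le
      simp only [y0, mul_zero, sub_zero] at h3
      rw [div_le_iff₀ (by linarith)]
      linarith
  · intro t ht1 htT
    have htm : t ∈ Icc 0 T := ⟨by linarith, htT⟩
    have h2 := anti_of (f := fun x => y x - y1 t * x) (f' := fun x => y1 x - y1 t)
      (a := t - 1) (b := t) (fun x => (dy x).sub (hlin _ x)) (by
        intro x hx
        have h3 := hmono ⟨by linarith [hx.1], hx.2.trans htT⟩ htm hx.2
        linarith)
    have h3 := h2 ⟨le_rfl, by linarith⟩ ⟨by linarith, le_rfl⟩ (by linarith : t - 1 ≤ t)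
    simp only at h3
    have h4 := hb t htm
    rw [abs_of_nonpos h4.2.2.1]
    nlinarith [h4.1]

end Pool.Agent.Y799.EG
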